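import Mathlib
import Pool.Agent.Lib.MP_24de68_nt.Final

namespace Pool.Agent.Results.MP_24de68_nt.OddInEveryProgression

/-- `a n` is the number of partitions of `n` having no part congruent to `3` modulo `6`. -/
def a (n : ℕ) : ℕ :=
  (Finset.univ.filter (fun p : Nat.Partition n => ∀ i ∈ p.parts, i % 6 ≠ 3)).card

theorem a_eq (n : ℕ) : a n = Pool.Agent.Lib.MP_24de68_nt.aCount n := by
  unfold a Pool.Agent.Lib.MP_24de68_nt.aCount Nat.Partition.restricted
  congr 1

/-- Every nonconstant arithmetic progression with no term congruent to `2` or `3` modulo `4`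
contains infinitely many `m` for which `a m` is odd. -/
theorem result (A B : ℕ) (hA : 1 ≤ A)
    (hAB : ∀ n : ℕ, (A * n + B) % 4 ≠ 2 ∧ (A * n + B) % 4 ≠ 3) :
    {n : ℕ | Odd (a (A * n + B))}.Infinite := by
  rw [Set.infinite_iff_exists_gt]
  intro K
  obtain ⟨n, hn, hodd⟩ := Pool.Agent.Lib.MP_24de68_nt.final hA hAB (K + 1)
  refine ⟨n, ?_, by omega⟩
  rw [Set.mem_ofPred_eq, a_eq]
  exact hodd

end Pool.Agent.Results.MP_24de68_nt.OddInEveryProgression
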